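import Mathlib
import Pool.Agent.H373R2.T7.SupE2
import Pool.Agent.H373R2.T7.SysCount
import Pool.Agent.L7h88.BW.Stm
import Pool.Agent.Y886.PPA

/-!
# Project TS (helper88, MP_61a569_nt): totient sums `q(n,k) = φ(k) + φ(n-k)/2 + 1` for almost all odd `n`

If `k = 2 p'`, `n - k = p (w - p)` with `p, w - p, p'` primes, then `q(n,k) = (n + 1 - w) / 2`. So for odd `n` and
`q = (n + 1 - w) / 2` the `k` with `q(n,k) = q` contain the solutions of `n = 2 p' + p (w - p)`. We show that this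
equation has many solutions for almost all pairs `(n, w)`, `w` of the order `√n (log n)^O(1)` (all locally possible
pairs), so that for almost all odd `n` almost all odd `q` (in the right classes modulo 3) at the distance
`√n .. √n (log n)^D` below `n/2` are of the form `q(n,k)`, each of them for many `k`.

Every statement is a `Prop` with a complete proof in its docstring; nothing is optimised, all constants may be changed
freely inside the proofs. `lamz z` (`Pool.Agent.H373R2.T7`) is the normalised indicator function of the integers without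
prime factors `≤ z`, `Vz z = ∏_{l ≤ z} (1 - 1/l)`, `pz z` the primes `≤ z`, `ee x = e^{2 π i x}`; always
`(log X)^B ≤ z ≤ (log X)^E`.
-/

set_option autoImplicit false

namespace Pool.Agent.L7h88.TS

open Finset
open Pool.Agent.H373R2.T7 (lamz Vz pz)
open Pool.Agent.H807R2.Dav (ee)

/-! ### definitions -/

/-- `log p` at primes `p`, otherwise `0` -/
noncomputable def lp (m : ℕ) : ℝ := if m.Prime then Real.log m else 0

/-- the primes minus their model -/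
noncomputable def gz (z m : ℕ) : ℝ := lp m - lamz z m

/-- `f (m / 2)` for even `m`, otherwise `0` -/
noncomputable def ev (f : ℕ → ℝ) (m : ℕ) : ℝ := if Even m then f (m / 2) else 0

/-- the trilinear sum (`w > p` and `n > p (w - p)` in the applications) -/
noncomputable def tri (f g h : ℕ → ℝ) (P n w : ℕ) : ℝ :=
  ∑ p ∈ Ioc (P / 2) P, f p * g (w - p) * ev h (n - p * (w - p))

/-- the parameters: `n` is in `(X/2, X]`, `w` in `(W/2, W]`, `p` in `(P/2, P]`, and `W P` is of the order `X`. Then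
`p ≤ P ≤ W/4 < w/2 + 1/2` and `p (w - p) ≤ P W ≤ X/8`, so that `n - p (w - p) ≥ X/4`; and `P ≥ X/(16 W) ≥ X^{1/10}/16`. -/
structure Par (X W P : ℕ) : Prop where
  h8 : 8 * (W * P) ≤ X
  h16 : X ≤ 16 * (W * P)
  h4 : 4 * P ≤ W
  h9 : (W : ℝ) ≤ (X : ℝ) ^ (9 / 10 : ℝ)

/-- the local conditions: `n` odd, `w ≡ n - 1 (mod 4)`, and a condition modulo 3 -/
def Com (n w : ℕ) : Prop := n % 2 = 1 ∧ (w + 1) % 4 = n % 4 ∧
  (n % 3 = 0 ∨ (n % 3 = 1 ∧ w % 3 = 0) ∨ (n % 3 = 2 ∧ w % 3 ≠ 0))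

/-- `w ≤ √X (log X)^D` -/
def Rg (D X W : ℕ) : Prop := (W : ℝ) ≤ √(X : ℝ) * Real.log X ^ D

/-! ### exponential sums -/

/-- **SUP**: the sup norm. Proof: `Pool.Agent.H373R2.T7.sup_diff (U + 1)` (file `Pool/Agent/H373R2/T7/SupE2.lean`) is the same statement with `Λ` instead
of `lp`, and `∑_{m ≤ N} |Λ(m) - lp m|`, the sum of `Λ` over the proper prime powers `≤ N`, is at most `2 √N (log N)^2`
(`ψ - θ` in Mathlib or in the library). -/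
def S_SUP : Prop := ∀ U : ℕ, ∃ B : ℕ, ∀ E : ℕ, ∃ N₀ : ℕ, ∀ N : ℕ, N₀ ≤ N → ∀ z : ℕ,
  Real.log N ^ B ≤ z → (z : ℝ) ≤ Real.log N ^ E → ∀ α : ℝ,
    ‖∑ m ∈ Icc 1 N, ((gz z m : ℝ) : ℂ) * ee ((m : ℝ) * α)‖ ≤ N / Real.log N ^ U

/-- **AC**: the autocorrelation. Proof. With `F(α) = ∑ G(m) ee(m α)` the number `∑_m G(m) G(m + h)` is the `h`-th Fourier coefficient of
`|F|²`. Hence the sum over `h` of its square is `∫_0^1 |F|⁴ ≤ M² ∫ |F|² = M² ∑ G²` (or, without integrals: take the mean over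
the `α = k / Q`, `k < Q`, `Q > 3 X`). -/
def S_AC : Prop := ∀ (X : ℕ) (G : ℤ → ℝ) (M : ℝ), (∀ m, m ∉ Icc (1 : ℤ) X → G m = 0) →
  (∀ α : ℝ, ‖∑ m ∈ Icc (1 : ℤ) X, ((G m : ℝ) : ℂ) * ee ((m : ℝ) * α)‖ ≤ M) →
  ∑ h ∈ Icc (-(X : ℤ)) X, (∑ m ∈ Icc (1 : ℤ) X, G m * G (m + h)) ^ 2 ≤ M ^ 2 * ∑ m ∈ Icc (1 : ℤ) X, G m ^ 2

/-! ### the third factor -/

/-- **V1** (`S_SUP → S_AC → S_V1`). Proof. Let `L = log X`, `G : ℤ → ℝ`, `G m = gz z (m/2)` for even `m` in `[1, X]`, otherwise `0`. `|gz z m| ≤ 2 L` for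
`m ≤ X` (`(Vz z)⁻¹ ≤ L`: see `choice` / `Vz_low` in `T7`, `z ≤ L^E`), so `∑ G² ≤ 4 X L²`; and `|∑ G(m) ee(m α)| ≤ M := X / L^U` for all `α` by S_SUP with
`N = X/2` (frequency `2 α`; `log N` and `log X` differ by a factor `≤ 2`). For `p ≤ P`, `w ∈ (W/2, W]` put `u = p (w - p)`, `0 < u ≤ X/8`. For `n ∈ (X/2, X]`
we have `ev (gz z) (n - u) = G(n - u)`. By positivity the sum over `n ∈ (X/2, X]` is at most the sum over all integers `n` of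
`(∑_p c_{p,w} G(n - u))²`, `|c_{p,w}| = |lp p lp (w - p)| ≤ L²`. Expand the square:
`≤ L⁴ ∑_w ∑_{p,p'} |A(u - u')|`, `A(h) = ∑_m G(m) G(m + h)`, and `u - u' = p (w - p) - p' (w - p') = (p - p')(w - p - p')`, `w - p - p' ≥ 1` (as `w > W/2 ≥ 2 P`).
* `p = p'`: at most `L⁴ P W ∑ G² ≤ 4 P W X L⁶ ≤ P² W X / (2 L^A)` as `P ≥ X^{1/10}/16`.
* `p ≠ p'`: for fixed `p` and `h ≠ 0`, `|h| ≤ X`, the pair `(p', w)` is determined by the divisor `d = p - p'` (positive or negative) of `h`: at most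
  `2 τ(|h|)` pairs. So the sum is `≤ L⁴ · 2 P ∑_{0 < |h| ≤ X} τ(|h|) |A(h)| ≤ 2 L⁴ P (2 ∑_{h ≤ X} τ(h)²)^{1/2} (∑_h A(h)²)^{1/2} ≤ 2 L⁴ P (2 X (1 + L)³)^{1/2} (M² · 4 X L²)^{1/2}
  ≤ 64 L⁷ P X² / L^U` (Cauchy, S_AC, `∑_{h ≤ X} τ(h)² ≤ X (1 + log X)³`), and `X² ≤ 16 X W P`. Take `U = A + 8`. -/
def S_V1 : Prop := ∀ A : ℕ, ∃ B : ℕ, ∀ E : ℕ, ∃ X₀ : ℕ, ∀ X W P z : ℕ, X₀ ≤ X → Par X W P →
  Real.log X ^ B ≤ z → (z : ℝ) ≤ Real.log X ^ E →
  ∑ w ∈ Ioc (W / 2) W, ∑ n ∈ Ioc (X / 2) X, tri lp lp (gz z) P n w ^ 2 ≤ (P : ℝ) ^ 2 * W * X / Real.log X ^ A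

/-! ### the second factor -/

/-- `κ(e) = ∏_{l | e} 1/(l - 2)` -/
noncomputable def kap (e : ℕ) : ℝ := ∏ l ∈ e.primeFactors, 1 / ((l : ℝ) - 2)

/-- the odd squarefree integers with all prime factors `≤ z` -/
noncomputable def Ez (z : ℕ) : Finset ℕ := (∏ l ∈ (pz z).erase 2, l).divisors

/-- the constant of the correlations -/
noncomputable def Cz (z : ℕ) : ℝ := (Vz z)⁻¹ ^ 2 * (1 / 2) * ∏ l ∈ (pz z).erase 2, (1 - 2 / (l : ℝ))

/-- **COR**: correlations of the model. Proof. Let `u' ≤ u` (symmetry; `u ≠ u'` is not needed but only used with it), `h = (u - u') / 2 ≥ 0`, even. The odd `n` of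
`(X/2, X]` are `n = 2 m + u` with `m` in an interval `I = (a, b]` (`a = (X/2 - u)/2`, `b = (X - u)/2`, up to rounding), `b - a = X/4 + O(1)`, `a ≥ X/8 - 1`, and
`ev (lamz z) (n - u) = lamz z m`, `ev (lamz z) (n - u') = lamz z (m + h)`. The number of the `m ≤ N` for which `m` and `m + h` have no prime factor `≤ z`
is by `sys_count 2 E (U + 3)` (`Pool/Agent/H373R2/T7/SysCount.lean`, `Q l m := l ∣ m ∨ l ∣ m + h`) `N ∏_{l ≤ z} (1 - ν(l)/l) + O(N/(log N)^(U+3))`,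
`ν(l) = 1` if `l | h`, otherwise `2`; here `ν(2) = 1` as `h` is even. Take the difference for `N = b`, `N = a`, multiply by `(Vz z)⁻² ≤ (log X)^2` (see V1), and use
`∏_{2 < l ≤ z} (1 - ν(l)/l) = ∏_{2 < l ≤ z} (1 - 2/l) ∏_{2 < l ≤ z, l | h} (1 + 1/(l - 2)) = ∏_{2 < l ≤ z} (1 - 2/l) ∑_{e ∈ Ez z, e | h} κ(e)`; for odd `e`, `e | h` is the same as
`e | u - u'`. The error `O(1)` in `b - a` gives `O(1) (Vz z)⁻²`. -/
def S_COR : Prop := ∀ U E : ℕ, ∃ X₀ : ℕ, ∀ X z u u' : ℕ, X₀ ≤ X → 2 ≤ z → (z : ℝ) ≤ Real.log X ^ E →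
  u % 2 = 1 → u' % 2 = 1 → u ≤ X / 8 → u' ≤ X / 8 → u ≠ u' → (4 : ℤ) ∣ (u : ℤ) - u' →
  |∑ n ∈ (Ioc (X / 2) X).filter (fun n => n % 2 = 1), ev (lamz z) (n - u) * ev (lamz z) (n - u') -
    X / 4 * Cz z * ∑ e ∈ (Ez z).filter (fun e : ℕ => (e : ℤ) ∣ (u : ℤ) - u'), kap e| ≤ X / Real.log X ^ U

/-- **KAP**: the tail of the singular series (and `0 ≤ Cz z ≤ 2`). Proof. For odd squarefree `e` and `E₀ ≥ 1` the sum over `e > E₀` is at most
`E₀^{-1/2} ∑_e κ(e) τ(e) e^{-1/2} ≤ E₀^{-1/2} ∏_{2 < l ≤ z} (1 + 2/((l - 2) √l))`, a convergent product (`≤ exp ∑ 6 / l^{3/2}`). And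
`Cz z = 4 · (1/2) · ∏_{2 < l ≤ z} (1 - 2/l)(1 - 1/l)^{-2}`, every factor is in `[0, 1]` (`z ≥ 2`). -/
def S_KAP : Prop := (∀ z : ℕ, 2 ≤ z → 0 ≤ Cz z ∧ Cz z ≤ 2) ∧ ∃ C : ℝ, 0 < C ∧ ∀ z : ℕ, ∀ E₀ : ℝ, 1 ≤ E₀ →
  ∑ e ∈ (Ez z).filter (fun e : ℕ => E₀ < e), kap e * (e.divisors.card : ℝ) / e ≤ C / √E₀

/-- **GOLD** (`S_SUP → ∀ D, S_GOLD (Rg D)`): sums of two primes, on average, with a congruence condition. Proof. Let `L = log X`, `g = gz z` on `[1, W]`, otherwise `0`. For `w ∈ (W/2, W]`,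
`p ≤ P ≤ W/4` the `w - p` are in `[1, W]`. For fixed `b` the sum over the `w ∈ (W/2, W]` is at most the sum over all integers `w` of `(∑_{p ≡ b} lp p g(w - p))²`, which is
`∫_0^1 |∑_{p ≡ b} lp p ee(p α)|² |∑ g(m) ee(m α)|² dα ≤ M² ∑_{p ≡ b} (lp p)²` with `M = W / L^U` (S_SUP with `N = W`; `log W ≤ log X ≤ 2 log W + ...` because `4 P ≤ W` and
`X ≤ 16 W P ≤ 4 W²`; so `(1/3) L ≤ log W ≤ L`). Sum over `b < e`: at most `(W²/L^{2U}) P L²`. Finally `W/P ≤ 16 W²/X ≤ 16 L^{2D}`. Take `U = A + D + 2`. (Instead of the integral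
one may use the mean over `α = k/Q`, `k < Q`, `Q > 2 W`.) -/
def S_GOLD (R : ℕ → ℕ → Prop) : Prop := ∀ A : ℕ, ∃ B : ℕ, ∀ E : ℕ, ∃ X₀ : ℕ, ∀ X W P z e : ℕ, X₀ ≤ X → Par X W P → R X W →
  Real.log X ^ B ≤ z → (z : ℝ) ≤ Real.log X ^ E → 1 ≤ e → (e : ℝ) ≤ Real.log X ^ A →
  ∑ b ∈ range e, ∑ w ∈ Ioc (W / 2) W,
    (∑ p ∈ (Ioc (P / 2) P).filter (fun p => p % e = b), lp p * gz z (w - p)) ^ 2 ≤ (P : ℝ) ^ 2 * W / Real.log X ^ A

/-- **V2** (`S_COR → S_KAP → S_GOLD R → S_V2 R`, any `R`). Proof. Let `L = log X`. For even `w`, odd `n`, and odd primes `p, p'` of `(P/2, P]` put `u = p (w - p)`, `u' = p' (w - p')`: odd, `≤ X/8`,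
`u - u' = (p - p')(w - p - p')`, a product of two even numbers; it is not `0` for `p ≠ p'`. Expand the square; the sum over `n` is the sum in S_COR. `|lp p| ≤ L`, `|gz z (w - p)| ≤ 2 L`, `(Vz z)⁻¹ ≤ L`.
* `p = p'`: at most `W P L² (2L)² X L² ≤ P² W X / L^{A+1}` as `P ≥ X^{1/10}/16`.
* `p ≠ p'`, the error of S_COR: at most `W P² L² (2L)² X/L^U`.
* the main terms with `e > E₀ := L^{B'}`: at most `(X/2) L² (2L)² ∑_{e > E₀} κ(e) N(e)`, `N(e)` the number of `(w, p, p')`, `p ≠ p'`, `w ∈ (W/2, W]`, `p, p' ∈ (P/2, P]` with `e | (p - p')(w - p - p')`. As `e` is squarefree,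
  `e = e₁ e₂` with `e₁ | p - p'`, `e₂ | w - p - p'`, `0 < |p - p'| < P`, `0 < w - p - p' ≤ W`: `N(e) ≤ ∑_{e₁ e₂ = e} P · (2P/e₁) · (2W/e₂) = 4 P² W τ(e)/e` (for given `p` there are at most `2 P / e₁` numbers `p' ≠ p` with `e₁ | p - p'`, `|p - p'| < P`, and for given
  `p, p'` at most `W/e₂` numbers `w` with `e₂ | w - p - p'`, `0 < w - p - p' ≤ W`). So these terms give `≤ 8 P² W X L⁴ C / √E₀` (S_KAP).
* the main terms with `e ≤ E₀`: first add the terms `p = p'` again (at most `(X/2) E₀ W P L² (2L)²` in total, `κ(e) ≤ 1`, `P ≥ X^{1/10}/16`). For fixed `e` the condition `e | (p - p')(w - p - p')` depends only on the residues `b, b'` of `p, p'`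
  and on `w`; with `S_b(w) = ∑_{p ≡ b (e)} lp p gz z (w - p)` the sum is at most `∑_{b,b' < e} ∑_w |S_b(w) S_{b'}(w)| ≤ e ∑_b ∑_w S_b(w)²`, and S_GOLD with a large exponent `A'` gives
  `≤ (X/2) E₀ · E₀ · P² W / L^{A'}` for all `e ≤ E₀` together. -/
def S_V2 (R : ℕ → ℕ → Prop) : Prop := ∀ A : ℕ, ∃ B : ℕ, ∀ E : ℕ, ∃ X₀ : ℕ, ∀ X W P z : ℕ, X₀ ≤ X → Par X W P → R X W →
  Real.log X ^ B ≤ z → (z : ℝ) ≤ Real.log X ^ E →
  ∑ w ∈ (Ioc (W / 2) W).filter (fun w => w % 2 = 0), ∑ n ∈ (Ioc (X / 2) X).filter (fun n => n % 2 = 1),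
    tri lp (gz z) (lamz z) P n w ^ 2 ≤ (P : ℝ) ^ 2 * W * X / Real.log X ^ A

/-! ### the main term -/

/-- **LOW**: the main term, every pair. Proof. `sys_main 3 E' U` (`Pool/Agent/H373R2/T7/SysMain2.lean`), with `N = P` and `N = P/2`, for the conditions (periodic in `r` modulo `l`)
`Q l r := 3 ≤ l ∧ ((l : ℤ) ∣ (w : ℤ) - r ∨ (l : ℤ) ∣ (n : ℤ) - r (w - r))`, at most `3` classes for every prime `l`; `z ≤ (log X)^E ≤ (log P)^{E'}`. If `p ∈ (P/2, P]` is a prime (odd, `> z`) and `¬ Q l p` for all primes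
`l ≤ z`, then `w - p` is odd (`w` even) and has no prime factor `≤ z`, and `n - p (w - p) ≡ 2 (mod 4)`: (`w ≡ n - 1 (mod 4)`: if `n ≡ 3`, `w ≡ 2` then `p (w - p) ≡ 1`; if `n ≡ 1`, `w ≡ 0` then `p (w - p) ≡ -p² ≡ 3 (mod 4)`) so
`(n - p (w - p))/2` has no prime factor `≤ z`; the term is `lp p (Vz z)⁻² ≥ lp p`. So the sum is `≥ ∑_{p ∈ (P/2, P], ¬ Q} lp p ≥ (P/2) Π - 2 P/(log P)^U - 2 √P (log P)²` (the last term for the
prime powers in `Λ`), `Π = ∏_{l ≤ z} (1 - ρ(l)/(l - 1))`, `ρ(l)` the number of the classes `r ≢ 0` with `Q l r`: `ρ(2) = 0`; `ρ(3) ≤ 1` by the condition `Com` (`w ≡ 0`: `r (w - r) ≡ 2` for both `r`, and `n ≢ 2`;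
`w ≡ 1`: take `r = 2`, `w - r ≡ 2`, `r (w - r) ≡ 1`, `n ≢ 1`; `w ≡ 2`: take `r = 1`, `w - r ≡ 1`, `n ≢ 1`); `ρ(l) ≤ 3` for `l ≥ 5`, and `1 - 3/(l - 1) ≥ (1 - 1/l)^7`. So `Π ≥ (1/2) (Vz z)^7 ≥ (log z)^{-C}/2 ≥ 8/log X`
(`Vz_low` in `Pool/Agent/H373R2/T7/Fund.lean`). -/
def S_LOW : Prop := ∀ E : ℕ, ∃ X₀ : ℕ, ∀ X W P z n w : ℕ, X₀ ≤ X → Par X W P → 2 ≤ z → (z : ℝ) ≤ Real.log X ^ E →
  n ∈ Ioc (X / 2) X → w ∈ Ioc (W / 2) W → Com n w → P / Real.log X ≤ tri lp (lamz z) (lamz z) P n w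

open Classical in
/-- **TRI** (`S_V1 → S_V2 R → S_LOW → S_TRI R`, any `R`). Proof. `lp = gz z + lamz z`, so `tri lp lp lp = tri lp lp (gz z) + tri lp (gz z) (lamz z) + tri lp (lamz z) (lamz z)`. If the pair `(n, w)` has `Com` (so `n` odd, `w` even) and
`tri lp lp lp < P/(2 L)` then by S_LOW one of the first two sums is at least `P/(4 L)` in absolute value. By S_V1 and S_V2 with `A + 3` and Chebyshev's inequality there are at most `2 · 16 L² · W X/L^{A+3} ≤ W X/L^A` such pairs (`z = ⌈L^B⌉`, `B` the maximum,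
`E = B + 1`). -/
def S_TRI (R : ℕ → ℕ → Prop) : Prop := ∀ A : ℕ, ∃ X₀ : ℕ, ∀ X W P : ℕ, X₀ ≤ X → Par X W P → R X W →
  (((Ioc (X / 2) X ×ˢ Ioc (W / 2) W).filter (fun x : ℕ × ℕ => Com x.1 x.2 ∧
    tri lp lp lp P x.1 x.2 < P / (2 * Real.log X))).card : ℝ) ≤ X * W / Real.log X ^ A

/-! ### totients -/

/-- the `k` with `q(n, k) = q` -/
def Kq (n q : ℕ) : Finset ℕ := (Ico 1 (n - 2)).filter (fun k => Nat.totient k + Nat.totient (n - k) / 2 + 1 = q)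

/-- **CNT**. Proof. Every term of `tri lp lp lp P n w` is `≤ L³` (`L = log X`), so there are at least `P/(2 L⁴)` integers `p ∈ (P/2, P]` with `p`, `w - p` and `p' = (n - p (w - p))/2` primes, `n - p (w - p)` even. Put `k = 2 p'`, `n - k = p (w - p)`, `p ≠ w - p` as `p ≤ P ≤ W/4 < w/2 + 1/2`,
so `φ(n - k) = (p - 1)(w - p - 1)`, `φ(k) = p' - 1` (`p'` odd or large: `p' ≥ X/8 > 2`), and
`φ(k) + φ(n-k)/2 + 1 = p' + (p (w - p) - w + 1)/2 = (n - w + 1)/2 = q`. Different `p` give different `k`, as `p (w - p)` is strictly increasing for `p < w/2`. `k ≤ n - 3` as `p (w - p) ≥ 3`. -/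
def S_CNT : Prop := ∃ X₀ : ℕ, ∀ X W P n w q : ℕ, X₀ ≤ X → Par X W P → n ∈ Ioc (X / 2) X → w ∈ Ioc (W / 2) W →
  n + 1 = w + 2 * q → P / (2 * Real.log X) ≤ tri lp lp lp P n w → P / (2 * Real.log X ^ 4) ≤ ((Kq n q).card : ℝ)

/-- the condition modulo 3 for `n` and `q` -/
def Mod3 (n q : ℕ) : Prop := n % 3 = 0 ∨ (n % 3 = 1 ∧ q % 3 = 1) ∨ (n % 3 = 2 ∧ q % 3 ≠ 0)

open Classical in
/-- for all `y` between `√n/2` and `√n (log n)^D`: for all but `y/(log n)^A` of the odd `q` with `y < n + 1 - 2 q ≤ 2 y` (and the condition modulo 3) there are at least `n/(y (log n)^5)` numbers `k` with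
`q(n, k) = q` -/
def Good (A D n : ℕ) : Prop := ∀ y : ℕ, √(n : ℝ) / 2 ≤ y → (y : ℝ) ≤ √(n : ℝ) * Real.log n ^ D →
  (((Icc 1 n).filter (fun q : ℕ => q % 2 = 1 ∧ y + 2 * q < n + 1 ∧ n + 1 ≤ 2 * y + 2 * q ∧ Mod3 n q ∧
    ((Kq n q).card : ℝ) < n / (y * Real.log n ^ 5))).card : ℝ) ≤ y / Real.log n ^ A

open Classical in
/-- **FIN1** (`(∀ D, S_TRI (Rg D)) → S_CNT → S_FIN1`). Proof. Let `L = log X`. The `n ≤ X/L^{A+1}` are few; cover the rest by `O(log L)` ranges `(X'/2, X']`, `X' = ⌊X/2^j⌋` (the halves of integers; rounding loses at most `O(log L)` integers `n`). For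
`n ∈ (X'/2, X']` and `y` in the range of `Good` we have `y ≥ √(X'/2)/2`; cover the `w = n + 1 - 2 q` by the ranges `(W_i/2, W_i]`, `W_i = 2^i W_0`, `W_0 = ⌊√(X'/2)⌋ + 1`, `i = 0, …, I`, `I ≤ C log L`, `W_I ≤ 8 √X' (log X')^{D}`, and `P_i = ⌊X'/(8 W_i)⌋`: this is `Par X' W_i P_i`
(`4 P ≤ X'/(2 W) ≤ W` as `W² ≥ X'/2`; `16 W P ≥ X'` as `P ≥ X'/(16 W)` for `X' ≥ 8 W`) and `Rg (D + 1) X' W_i`. By S_TRI with a large exponent `A'` all but `X' L^{-A'/2}` of the `n ∈ (X'/2, X']` are such that for every `i` at most `W_i L^{-A'/3}` of the `w ∈ (W_i/2, W_i]` with `Com n w` have `tri lp lp lp P_i n w < P_i/(2 log X')`. For such `n` and `y`: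
`(y, 2y]` meets at most 3 of the ranges, all with `W_i ≤ 4 y`; if `q` is odd, `n` odd, `w = n + 1 - 2 q` then `w + 1 = n + 2 - 2 q ≡ n (mod 4)`, and `w ≡ n + 1 + q (mod 3)` turns `Mod3 n q` into the condition of `Com`. So all but `3 · 4 y L^{-A'/3}` of the `q` have
`#Kq ≥ P_i/(2 (log X')⁴) ≥ X'/(32 W_i (log X')⁴) ≥ n/(128 y (log X')⁴) ≥ n/(y (log n)^5)` (S_CNT). -/
def S_FIN1 : Prop := ∀ A D : ℕ, ∃ X₀ : ℕ, ∀ X : ℕ, X₀ ≤ X →
  (((Icc 1 X).filter (fun n : ℕ => n % 2 = 1 ∧ ¬ Good A D n)).card : ℝ) ≤ X / Real.log X ^ A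

open Classical in
/-- **PRW** (`Pool.Agent.L7h88.BW.S_BVG → Pool.Agent.L7h88.BW.S_POOR → S_PRW`, both proved, see `Pool/Agent/L7h88/BW/All.lean`, `bvg` and `Pool.Agent.L7h18.BW.s_POOR`): many primes `≡ 1 (mod 3)` just below `n/2`, for almost all `n`. Proof. First for `n ∈ (X'/1.2, X']`: put
`Y = log (X'/2)` and `I(n) = ((n - 1.9 √n)/2, (n - 1.1 √n)/2)`; for these `n` the interval `I(n)` is inside `(e^{Y - 1/5}, e^Y)`, and all the integers `q` of `I(n)` satisfy `y < n + 1 - 2 q ≤ 2 y`, `y = ⌊√n⌋`. Take `κ = e^{-(1/2 + η') Y}`, `η' = min η 0.002` (`η` of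
S_POOR), and `t` from S_BVG. By S_BVG with `q = 3`, `a = 1` (`3 ≤ Fc Y`) and S_POOR (constant `c`) all but `e^{0.306 Y} + (e^Y/Y^{A'})/((c/4) κ e^Y)` of the windows `(e^{u_j}, e^{u_j + κ}]`, `u_j = Y - 1/4 + t + j κ`, contain primes `≡ 1 (mod 3)` with `∑ log p ≥ (c/4) κ e^Y`;
call the other windows bad: there are at most `κ⁻¹ Y^{-A'+1}` bad ones. The interval `I(n)` has logarithmic length `≥ (1/3) e^{-Y/2}`, so it contains at least `J = e^{-Y/2}/(6 κ)` of the windows, and every window is in `I(n)` for at most `4 √X'` of the `n`. If at least `J/2` of the windows in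
`I(n)` are not bad, then `I(n)` contains at least `(J/2)(c/4) κ e^Y/(Y + 1) ≥ c' √n/log n` primes `≡ 1 (mod 3)`. Otherwise `I(n)` contains at least `J/2` bad windows; the number of these `n` is at most `κ⁻¹ Y^{-A'+1} · 4 √X'/(J/2) ≤ C X' Y^{-A'+1}`. Finally sum over
`X' = X 1.2^{-j}`, `X' ≥ X/(log X)^{A+1}`. -/
def S_PRW : Prop := ∃ c : ℝ, 0 < c ∧ ∀ A : ℕ, ∃ X₀ : ℕ, ∀ X : ℕ, X₀ ≤ X →
  (((Icc 1 X).filter (fun n : ℕ => (((Icc 1 n).filter (fun q : ℕ => q.Prime ∧ q % 3 = 1 ∧ Nat.sqrt n + 2 * q < n + 1 ∧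
    n + 1 ≤ 2 * Nat.sqrt n + 2 * q)).card : ℝ) < c * √(n : ℝ) / Real.log n)).card : ℝ) ≤ X / Real.log X ^ A

open Classical in
/-- the `k` with `q(n,k)` a prime for which `p_q - q - 1` and `p_q - q + 1` have at most `T` divisors (`Few` of `Pool/Agent/Y886/PPA.lean`) -/
noncomputable def KF (n : ℕ) (T : ℝ) : Finset ℕ := (Ico 1 (n - 2)).filter (fun k =>
  (Nat.totient k + Nat.totient (n - k) / 2 + 1).Prime ∧ Pool.Agent.Y886.PP.Few T (Nat.totient k + Nat.totient (n - k) / 2 + 1))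

open Classical in
/-- **FIN2** (`S_FIN1 → S_PRW → S_FIN2`). Proof. `L = log X`. The set `BQ X T` of the `q ≤ X` which are not `Few T` has at most `2 Y (1 + log Y)/T` elements, `Y ≤ 4 X log X` (`BQ_le` in `Pool/Agent/Y886/PPA.lean`; `X ≤ π(Y)`), so at most `X L^{3 - C'}` for `T = L^{C'}` (use `T = (log X)^{C'}/2^{C'}` or
`n ≥ √X` and `T = (L/2)^{C'}` to have one `T ≤ (log n)^{C'}` for all `n ∈ [√X, X]`). Every such `q` satisfies `y < n + 1 - 2 q ≤ 2 y`, `y = ⌊√n⌋`, for at most `2 √X` of the `n ≤ X`; so all but `X/L^{A+1}` of the `n ≤ X`, `n ≥ X/L^{A+1}`, have at most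
`√n/L^2` of them in this range (`C' = 2 A + 20`). For an odd `n` outside of the exceptional sets of S_FIN1 (`D = 1`, `A + 2` for `A`), S_PRW: at least `c √n/log n - 2 √n/(log n)^2 ≥ (c/2) √n/log n` primes `q ≡ 1 (mod 3)` (so odd and `Mod3 n q`) of the range are `Few` and have `#Kq n q ≥ n/(y (log n)^5) ≥ √n/(log n)^5`.
The sets `Kq n q` are disjoint subsets of `KF n T`: `#KF ≥ (c/2) n/(log n)^6 ≥ n/(log n)^7`. -/
def S_FIN2 : Prop := ∀ A : ℕ, ∃ C X₀ : ℕ, ∀ X : ℕ, X₀ ≤ X →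
  (((Icc 1 X).filter (fun n : ℕ => n % 2 = 1 ∧ ((KF n (Real.log n ^ C)).card : ℝ) < n / Real.log n ^ 7)).card : ℝ) ≤
    X / Real.log X ^ A

end Pool.Agent.L7h88.TS
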