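import Mathlib
import Pool.Agent.L7h88.TS.Stm
import Pool.Agent.L7h28.TS.Sup
import Pool.Agent.L7h28.TS.Ac
import Pool.Agent.L7h28.TS.Gold
import Pool.Agent.L7h28.TS.Kap
import Pool.Agent.L7h28.TS.Cor
import Pool.Agent.L7h50.TS.V1
import Pool.Agent.L7h50.TS.Low
import Pool.Agent.L7h50.TS.Fin1
import Pool.Agent.L7h50.TS.Fin2
import Pool.Agent.L7h50.TS.Prw
import Pool.Agent.L7h30.TS.V2
import Pool.Agent.L7h30.TS.Tri
import Pool.Agent.L7h88.BW.All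
import Pool.Agent.L7h18.BW.Poor

/-! Assembly of project TS. -/

set_option autoImplicit false

namespace Pool.Agent.L7h88.TS

theorem tri_all : ∀ D, S_TRI (Rg D) := fun D =>
  Pool.Agent.L7h30.TS.s_TRI (Rg D) (Pool.Agent.L7h50.TS.s_V1 Pool.Agent.L7h28.TS.s_SUP Pool.Agent.L7h28.TS.s_AC)
    (Pool.Agent.L7h30.TS.s_V2 (Rg D) Pool.Agent.L7h28.TS.s_COR Pool.Agent.L7h28.TS.s_KAP
      (Pool.Agent.L7h28.TS.s_GOLD Pool.Agent.L7h28.TS.s_SUP D)) Pool.Agent.L7h50.TS.s_LOW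

theorem fin1 : S_FIN1 := Pool.Agent.L7h50.TS.s_FIN1 tri_all Pool.Agent.L7h30.TS.s_CNT

theorem prw : S_PRW := Pool.Agent.L7h50.TS.s_PRW Pool.Agent.L7h88.BW.bvg Pool.Agent.L7h18.BW.s_POOR

theorem fin2 : S_FIN2 := Pool.Agent.L7h50.TS.s_FIN2 fin1 prw

end Pool.Agent.L7h88.TS
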